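import Pool.Agent.H985.Par.StmPar

/-!
# The lower bound for sifted sets (task LOW of helper985)
-/

set_option autoImplicit false

namespace Pool.Agent.H996.Par

open Polynomial Finset
open scoped Classical
open Pool.Agent.H694.Typ
open Pool.Agent.H985.Par

section squares

variable {K : Type} [Field K] [Fintype K]

theorem wt_succ (c : ℕ) : 2 * wt K (c + 1) ≤ wt K c := by
  rw [wt_add]
  have h1 : wt K 1 ≤ 1 / 2 := by simpa using wt_le_half (k := K) 1
  have h2 := wt_nonneg (k := K) c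
  nlinarith

theorem geo_wt (c n : ℕ) : ∑ j ∈ Finset.Icc (c + 1) (c + n), wt K j ≤ wt K c - wt K (c + n) := by
  induction n with
  | zero => simp
  | succ n ih =>
    rw [← add_assoc, sum_Icc_succ_top (by omega)]
    have := wt_succ (K := K) (c + n)
    linarith

theorem geo_wt_le (c d : ℕ) : ∑ j ∈ Finset.Icc (c + 1) d, wt K j ≤ wt K c := by
  rcases le_or_gt d c with h | h
  · rw [Finset.Icc_eq_empty (by omega), sum_empty]
    exact wt_nonneg c
  · obtain ⟨n, rfl⟩ := Nat.exists_eq_add_of_le h.le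
    have := geo_wt (K := K) c n
    have := wt_nonneg (k := K) (c + n)
    linarith

theorem sq_wt (d c : ℕ) : (((Mn K d).filter (fun b => ∃ g : K[X], g.Monic ∧ c < g.natDegree ∧
    g ^ 2 ∣ b)).card : ℝ) ≤ (Fintype.card K : ℝ) ^ d * wt K c := by
  have hq := q_ge (k := K)
  have hsub : (Mn K d).filter (fun b => ∃ g : K[X], g.Monic ∧ c < g.natDegree ∧ g ^ 2 ∣ b) ⊆
      (Finset.Icc (c + 1) d).biUnion (fun j => (Mn K j).biUnion
        (fun g => (Mn K d).filter (fun b => g ^ 2 ∣ b))) := by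
    intro b hb
    rw [mem_filter] at hb
    obtain ⟨hb, g, hg, hc, hd⟩ := hb
    rw [mem_biUnion]
    refine ⟨g.natDegree, ?_, ?_⟩
    · rw [mem_Icc]
      refine ⟨by omega, ?_⟩
      rw [mem_Mn] at hb
      have := natDegree_le_of_dvd hd hb.1.ne_zero
      rw [natDegree_pow] at this
      omega
    · rw [mem_biUnion]
      exact ⟨g, mem_Mn.2 ⟨hg, rfl⟩, mem_filter.2 ⟨hb, hd⟩⟩
  have h1 : (((Mn K d).filter (fun b => ∃ g : K[X], g.Monic ∧ c < g.natDegree ∧
      g ^ 2 ∣ b)).card : ℝ) ≤ ∑ j ∈ Finset.Icc (c + 1) d, ∑ g ∈ Mn K j,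
        (((Mn K d).filter (fun b => g ^ 2 ∣ b)).card : ℝ) := by
    have := (card_le_card hsub).trans (card_biUnion_le.trans (sum_le_sum fun j _ => card_biUnion_le))
    exact_mod_cast this
  refine h1.trans ?_
  have h2 : ∀ j ∈ Finset.Icc (c + 1) d, ∑ g ∈ Mn K j,
        (((Mn K d).filter (fun b => g ^ 2 ∣ b)).card : ℝ) ≤ (Fintype.card K : ℝ) ^ d * wt K j := by
    intro j _
    have h3 : ∀ g ∈ Mn K j, (((Mn K d).filter (fun b => g ^ 2 ∣ b)).card : ℝ) ≤
        (Fintype.card K : ℝ) ^ d * (wt K j * wt K j) := by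
      intro g hg
      rw [mem_Mn] at hg
      refine (card_dvd_le (hg.1.pow 2)).trans ?_
      rw [natDegree_pow, hg.2, two_mul, wt_add]
    refine (sum_le_sum h3).trans ?_
    rw [sum_const, card_Mn, nsmul_eq_mul]
    have h4 : (Fintype.card K : ℝ) ^ j * wt K j = 1 := by
      unfold wt
      exact mul_inv_cancel₀ (by positivity)
    apply le_of_eq
    calc (((Fintype.card K ^ j : ℕ)) : ℝ) * ((Fintype.card K : ℝ) ^ d * (wt K j * wt K j)) =
        (Fintype.card K : ℝ) ^ d * wt K j * ((Fintype.card K : ℝ) ^ j * wt K j) := by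
          push_cast; ring
      _ = (Fintype.card K : ℝ) ^ d * wt K j := by rw [h4, mul_one]
  refine (sum_le_sum h2).trans ?_
  rw [← mul_sum]
  have := geo_wt_le (K := K) c d
  gcongr

theorem add_mem_Mn {n : ℕ} {f a : K[X]} (hf : f ∈ Mn K n) (ha : a.natDegree < n) :
    f + a ∈ Mn K n := by
  rw [mem_Mn] at hf ⊢
  have h1 : a.degree < f.degree := by
    rw [degree_eq_natDegree hf.1.ne_zero, hf.2]
    exact (degree_le_natDegree).trans_lt (by exact_mod_cast ha)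
  exact ⟨hf.1.add_of_left h1, by rw [natDegree_add_eq_left_of_degree_lt h1, hf.2]⟩

theorem sq_part {k : ℕ} (n m : ℕ) (α : Fin k → K[X]) (hα : ∀ i, (α i).natDegree < n) :
    (((Sfs K α n m).filter (fun f => ∃ i, ¬ Squarefree (f + α i))).card : ℝ) ≤
      2 * k * (Fintype.card K : ℝ) ^ n / (Fintype.card K : ℝ) ^ m := by
  have hq := q_ge (k := K)
  have hsub : (Sfs K α n m).filter (fun f => ∃ i, ¬ Squarefree (f + α i)) ⊆
      (univ : Finset (Fin k)).biUnion (fun i => ((Mn K n).filter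
        (fun b => ∃ g : K[X], g.Monic ∧ m < g.natDegree ∧ g ^ 2 ∣ b)).image
          (fun b => b - α i)) := by
    intro f hf
    rw [mem_filter, Sfs, mem_filter] at hf
    obtain ⟨⟨hf1, hf2⟩, i, hi⟩ := hf
    have hmon := add_mem_Mn hf1 (hα i)
    have hm0 : f + α i ≠ 0 := (mem_Mn.1 hmon).1.ne_zero
    rw [mem_biUnion]
    refine ⟨i, mem_univ _, mem_image.2 ⟨f + α i, mem_filter.2 ⟨hmon, ?_⟩, by ring⟩⟩
    rw [squarefree_iff_irreducible_sq_not_dvd_of_ne_zero hm0] at hi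
    push Not at hi
    obtain ⟨P, hP, hPd⟩ := hi
    have hP0 : P ≠ 0 := hP.ne_zero
    have hass : Associated (normalize P) P := normalize_associated P
    have hN : (normalize P).Monic := monic_normalize hP0
    have hNi : Irreducible (normalize P) := hass.irreducible_iff.2 hP
    have hNd : normalize P ^ 2 ∣ f + α i := by
      rw [pow_two]
      exact (Associated.mul_mul hass hass).dvd.trans hPd
    exact ⟨normalize P, hN, hf2 i _ hN hNi ((Dvd.intro_left _ (pow_two (normalize P)).symm).trans hNd),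
      hNd⟩
  have h1 : (((Sfs K α n m).filter (fun f => ∃ i, ¬ Squarefree (f + α i))).card : ℝ) ≤
      ∑ i : Fin k, (((Mn K n).filter
        (fun b => ∃ g : K[X], g.Monic ∧ m < g.natDegree ∧ g ^ 2 ∣ b)).card : ℝ) := by
    have := (card_le_card hsub).trans (card_biUnion_le.trans (sum_le_sum fun i _ => card_image_le))
    exact_mod_cast this
  refine h1.trans ?_
  rw [sum_const, card_univ, Fintype.card_fin, nsmul_eq_mul]
  have h2 := sq_wt (K := K) n m
  have h3 : (0 : ℝ) ≤ k := Nat.cast_nonneg k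
  have h4 : (0 : ℝ) ≤ (Fintype.card K : ℝ) ^ n * wt K m := by
    have := wt_nonneg (k := K) m
    positivity
  calc (k : ℝ) * (((Mn K n).filter
        (fun b => ∃ g : K[X], g.Monic ∧ m < g.natDegree ∧ g ^ 2 ∣ b)).card : ℝ)
      ≤ k * ((Fintype.card K : ℝ) ^ n * wt K m) := mul_le_mul_of_nonneg_left h2 h3
    _ ≤ 2 * (k * ((Fintype.card K : ℝ) ^ n * wt K m)) := by
        have := mul_nonneg h3 h4
        linarith
    _ = 2 * k * (Fintype.card K : ℝ) ^ n / (Fintype.card K : ℝ) ^ m := by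
        unfold wt
        rw [div_eq_mul_inv]
        ring

end squares

section mertens

variable {K : Type} [Field K] [Fintype K]

theorem irn_wt (j : ℕ) (hj : 1 ≤ j) : ((Irn K j).card : ℝ) * wt K j ≤ 1 / j := by
  have hq := q_ge (k := K)
  have h1 : (j : ℝ) * (Irn K j).card ≤ (Fintype.card K : ℝ) ^ j := by
    exact_mod_cast irn_one_le (k := K) (d := j) hj
  have hpos : (0 : ℝ) < (Fintype.card K : ℝ) ^ j := by positivity
  have hj0 : (0 : ℝ) < j := by exact_mod_cast hj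
  unfold wt
  rw [le_div_iff₀ hj0]
  calc ((Irn K j).card : ℝ) * ((Fintype.card K : ℝ) ^ j)⁻¹ * j
      = ((j : ℝ) * (Irn K j).card) * ((Fintype.card K : ℝ) ^ j)⁻¹ := by ring
    _ ≤ (Fintype.card K : ℝ) ^ j * ((Fintype.card K : ℝ) ^ j)⁻¹ := by gcongr
    _ = 1 := mul_inv_cancel₀ hpos.ne'

theorem sum_wt (m : ℕ) : ∑ P ∈ PU K m, wt K P.natDegree ≤ 1 + Real.log m := by
  rw [sum_PU]
  have h : ∀ j ∈ Finset.Icc 1 m, ∑ P ∈ Irn K j, wt K P.natDegree ≤ ((j : ℝ))⁻¹ := by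
    intro j hj
    rw [mem_Icc] at hj
    rw [sum_congr rfl (fun P hP => by rw [(mem_Irn.1 hP).2.1]), sum_const, nsmul_eq_mul]
    have := irn_wt (K := K) j hj.1
    rwa [one_div] at this
  refine (sum_le_sum h).trans ?_
  have h2 := harmonic_le_one_add_log m
  rw [harmonic_eq_sum_Icc] at h2
  push_cast at h2
  exact h2

theorem sum_wt_sq (m : ℕ) : ∑ P ∈ PU K m, wt K P.natDegree ^ 2 ≤ 1 := by
  rw [sum_PU]
  have h : ∀ j ∈ Finset.Icc (0 + 1) m, ∑ P ∈ Irn K j, wt K P.natDegree ^ 2 ≤ (1 / 2 : ℝ) ^ j := by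
    intro j hj
    rw [mem_Icc] at hj
    rw [sum_congr rfl (fun P hP => by rw [(mem_Irn.1 hP).2.1]), sum_const, nsmul_eq_mul]
    have h1 := irn_wt (K := K) j (by omega)
    have h2 := wt_le_half (k := K) j
    have h3 := wt_nonneg (k := K) j
    have h4 : (1 : ℝ) / j ≤ 1 := by
      rw [div_le_one (by exact_mod_cast (show 0 < j by omega))]
      exact_mod_cast (show 1 ≤ j by omega)
    calc ((Irn K j).card : ℝ) * wt K j ^ 2 = (((Irn K j).card : ℝ) * wt K j) * wt K j := by ring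
      _ ≤ 1 * wt K j := mul_le_mul_of_nonneg_right (h1.trans h4) h3
      _ ≤ _ := by rw [one_mul]; exact h2
  refine (sum_le_sum h).trans ?_
  have := geo_half_le 0 m
  simpa using this

/-- the elementary inequality -/
theorem one_sub_ge (k w : ℕ) (y : ℝ) (hwk : w ≤ k) (hwy : (w : ℝ) + 1 ≤ y) :
    Real.exp (-((k : ℝ) * y⁻¹ + (8 * (k : ℝ) ^ 3 + 2 * (k : ℝ) ^ 2) * (y⁻¹) ^ 2)) ≤
      1 - (w : ℝ) / y := by
  have hw0 : (0 : ℝ) ≤ w := Nat.cast_nonneg w
  have hk0 : (0 : ℝ) ≤ k := Nat.cast_nonneg k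
  have hwk' : (w : ℝ) ≤ k := by exact_mod_cast hwk
  have hy : 0 < y := by linarith
  have hyi : 0 < y⁻¹ := inv_pos.2 hy
  rcases le_or_gt y (2 * k) with h | h
  · have h1 : y⁻¹ ≤ 1 - (w : ℝ) / y := by
      rw [inv_eq_one_div, div_le_iff₀ hy, sub_mul, div_mul_cancel₀ _ hy.ne']
      linarith
    refine le_trans ?_ h1
    have h2 : y⁻¹ = Real.exp (-Real.log y) := by rw [Real.exp_neg, Real.exp_log hy]
    rw [h2, Real.exp_le_exp]
    rw [← h2]
    apply neg_le_neg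
    have h3 : Real.log y ≤ y := (Real.log_le_sub_one_of_pos hy).trans (by linarith)
    have h4 : y ≤ 8 * (k : ℝ) ^ 3 * (y⁻¹) ^ 2 := by
      rw [inv_pow, ← div_eq_mul_inv, le_div_iff₀ (by positivity)]
      have h5 : y ^ 3 ≤ (2 * (k : ℝ)) ^ 3 := pow_le_pow_left₀ hy.le h 3
      nlinarith
    have h5 : 0 ≤ (k : ℝ) * y⁻¹ := by positivity
    have h6 : 0 ≤ 2 * (k : ℝ) ^ 2 * (y⁻¹) ^ 2 := by positivity
    nlinarith
  · set x : ℝ := (k : ℝ) * y⁻¹ with hx
    have hx0 : 0 ≤ x := by positivity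
    have hx1 : x < 1 / 2 := by
      rw [hx, ← div_eq_mul_inv, div_lt_iff₀ hy]
      linarith
    have h1 : 1 - x ≤ 1 - (w : ℝ) / y := by
      rw [hx, div_eq_mul_inv]
      have := mul_le_mul_of_nonneg_right hwk' hyi.le
      linarith
    refine le_trans ?_ h1
    have h2 : Real.exp (-(x + 2 * x ^ 2)) ≤ 1 - x := by
      have h3 := Real.add_one_le_exp (x + 2 * x ^ 2)
      have h4 : 1 ≤ (1 - x) * Real.exp (x + 2 * x ^ 2) := by
        calc (1 : ℝ) ≤ (1 - x) * (x + 2 * x ^ 2 + 1) := by nlinarith [mul_nonneg hx0 hx0]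
          _ ≤ _ := mul_le_mul_of_nonneg_left h3 (by linarith)
      rw [Real.exp_neg, inv_le_iff_one_le_mul₀ (Real.exp_pos _)]
      exact h4
    refine le_trans ?_ h2
    rw [Real.exp_le_exp]
    apply neg_le_neg
    have h3 : 2 * x ^ 2 = 2 * (k : ℝ) ^ 2 * (y⁻¹) ^ 2 := by rw [hx]; ring
    have h4 : 0 ≤ 8 * (k : ℝ) ^ 3 * (y⁻¹) ^ 2 := by positivity
    nlinarith

/-- the lower bound for the product -/
theorem prod_ge (k m : ℕ) (hm : 1 ≤ m) (w : K[X] → ℕ)
    (hw : ∀ P ∈ PU K m, w P ≤ k ∧ w P < Fintype.card K ^ P.natDegree) :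
    Real.exp (-((k : ℝ) + (8 * (k : ℝ) ^ 3 + 2 * (k : ℝ) ^ 2))) / (m : ℝ) ^ k ≤
      ∏ P ∈ PU K m, (1 - (w P : ℝ) / (Fintype.card K : ℝ) ^ P.natDegree) := by
  have hq := q_ge (k := K)
  set C : ℝ := 8 * (k : ℝ) ^ 3 + 2 * (k : ℝ) ^ 2 with hC
  have hC0 : 0 ≤ C := by positivity
  have hk0 : (0 : ℝ) ≤ k := Nat.cast_nonneg k
  have hm0 : (0 : ℝ) < m := by exact_mod_cast hm
  have h1 : ∏ P ∈ PU K m, Real.exp (-((k : ℝ) * wt K P.natDegree + C * wt K P.natDegree ^ 2)) ≤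
      ∏ P ∈ PU K m, (1 - (w P : ℝ) / (Fintype.card K : ℝ) ^ P.natDegree) := by
    refine prod_le_prod (fun _ _ => (Real.exp_pos _).le) fun P hP => ?_
    obtain ⟨h2, h3⟩ := hw P hP
    have h4 : (w P : ℝ) + 1 ≤ (Fintype.card K : ℝ) ^ P.natDegree := by
      exact_mod_cast h3
    exact one_sub_ge k (w P) _ h2 h4
  refine le_trans ?_ h1
  rw [← Real.exp_sum]
  have h2 : ∑ P ∈ PU K m, (-((k : ℝ) * wt K P.natDegree + C * wt K P.natDegree ^ 2)) =
      -((k : ℝ) * ∑ P ∈ PU K m, wt K P.natDegree + C * ∑ P ∈ PU K m, wt K P.natDegree ^ 2) := by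
    rw [sum_neg_distrib, sum_add_distrib, ← mul_sum, ← mul_sum]
  rw [h2]
  have h3 : Real.exp (-((k : ℝ) + C)) / (m : ℝ) ^ k =
      Real.exp (-((k : ℝ) * (1 + Real.log m) + C * 1)) := by
    have h4 : (m : ℝ) ^ k = Real.exp (k * Real.log m) := by
      rw [mul_comm, ← Real.rpow_natCast, Real.rpow_def_of_pos hm0]
    rw [h4, ← Real.exp_sub]
    congr 1
    ring
  rw [h3, Real.exp_le_exp]
  apply neg_le_neg
  exact add_le_add (mul_le_mul_of_nonneg_left (sum_wt m) hk0)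
    (mul_le_mul_of_nonneg_left (sum_wt_sq m) hC0)

end mertens

section sieve

variable {K : Type} [Field K]

/-- the residue classes -/
noncomputable def Om {k : ℕ} (α : Fin k → K[X]) (P : K[X]) : Finset K[X] :=
  univ.image (fun i => (-α i) %ₘ P)

theorem Om_card {k : ℕ} (α : Fin k → K[X]) (P : K[X]) : (Om α P).card ≤ k := by
  have := card_image_le (s := (univ : Finset (Fin k))) (f := fun i => (-α i) %ₘ P)
  rwa [card_univ, Fintype.card_fin] at this

theorem dvd_rem (a s : K[X]) {P : K[X]} : P ∣ a - (-s) %ₘ P ↔ P ∣ a + s := by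
  have h : a - (-s) %ₘ P = (a + s) + P * ((-s) /ₘ P) := by
    have h1 := modByMonic_add_div (-s) P
    linear_combination -h1
  rw [h, dvd_add_left (dvd_mul_right _ _)]

theorem Om_deg {k : ℕ} (α : Fin k → K[X]) {P : K[X]} (hP : P.Monic) :
    ∀ r ∈ Om α P, r.degree < P.degree := by
  intro r hr
  obtain ⟨i, -, rfl⟩ := mem_image.1 hr
  exact degree_modByMonic_lt _ hP

variable [Fintype K]

theorem Om_lt {k : ℕ} (α : Fin k → K[X]) {P : K[X]} (hP : P.Monic)
    (hr : ∃ r : K[X], ∀ i, ¬ P ∣ r + α i) : (Om α P).card < Fintype.card K ^ P.natDegree := by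
  obtain ⟨r, hr⟩ := hr
  have hD : ((univ : Finset (Fin P.natDegree → K)).image
      (pol : (Fin P.natDegree → K) → K[X])).card = Fintype.card K ^ P.natDegree := by
    rw [card_image_of_injective _ pol_inj, card_univ, Fintype.card_fun, Fintype.card_fin]
  have hmem : ∀ a : K[X], a.degree < P.degree → a ∈ (univ : Finset (Fin P.natDegree → K)).image
      (pol : (Fin P.natDegree → K) → K[X]) := by
    intro a ha
    rw [degree_eq_natDegree hP.ne_zero] at ha
    obtain ⟨c, hc⟩ := exists_pol ha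
    exact mem_image.2 ⟨c, mem_univ _, hc⟩
  rw [← hD]
  refine card_lt_card ⟨fun a ha => hmem a (Om_deg α hP a ha), fun h => ?_⟩
  have h1 := h (hmem (r %ₘ P) (degree_modByMonic_lt _ hP))
  obtain ⟨i, -, hi⟩ := mem_image.1 h1
  have h2 : (-α i) %ₘ P = r %ₘ P := hi
  apply hr i
  rw [← dvd_rem, h2]
  refine ⟨r /ₘ P, ?_⟩
  have h3 := modByMonic_add_div r P
  linear_combination -h3

theorem Sfs_eq {k : ℕ} (α : Fin k → K[X]) (n m : ℕ) :
    ((Sfs K α n m : Finset K[X]) : Set K[X]) = (fun u : K[X] => X ^ n + u) ''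
      {u | u.degree < (n : WithBot ℕ) ∧
        ∀ P ∈ PU K m, ∀ r ∈ Om α P, ¬ P ∣ X ^ n + 1 * u - r} := by
  ext f
  rw [Finset.mem_coe, Sfs, mem_filter, Set.mem_image]
  constructor
  · rintro ⟨hf1, hf2⟩
    rw [mem_Mn] at hf1
    obtain ⟨c, hc⟩ := exists_mon hf1.1 hf1.2
    refine ⟨pol c, ⟨pol_degree c, ?_⟩, hc⟩
    intro P hP r hr hd
    obtain ⟨i, -, rfl⟩ := mem_image.1 hr
    rw [one_mul, dvd_rem] at hd
    have hc' : X ^ n + pol c = f := hc
    rw [hc'] at hd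
    rw [mem_PU] at hP
    have := hf2 i P hP.1 hP.2.1 hd
    omega
  · rintro ⟨u, ⟨hu1, hu2⟩, rfl⟩
    obtain ⟨c, rfl⟩ := exists_pol hu1
    refine ⟨mem_Mn.2 ⟨mon_monic c, mon_natDegree c⟩, ?_⟩
    intro i P hP hPi hd
    by_contra hcon
    rw [not_lt] at hcon
    refine hu2 P (mem_PU.2 ⟨hP, hPi, hcon⟩) ((-α i) %ₘ P) (mem_image.2 ⟨i, mem_univ _, rfl⟩) ?_
    rw [one_mul, dvd_rem]
    exact hd

theorem Sfs_card {k : ℕ} (α : Fin k → K[X]) (n m : ℕ) :
    (Sfs K α n m).card = {u : K[X] | u.degree < (n : WithBot ℕ) ∧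
        ∀ P ∈ PU K m, ∀ r ∈ Om α P, ¬ P ∣ X ^ n + 1 * u - r}.ncard := by
  rw [← Set.ncard_coe_finset, Sfs_eq, Set.ncard_image_of_injective]
  intro a b h
  exact add_left_cancel h

end sieve

theorem low (hs : S_sw) : S_low := by
  intro K _ _ k
  obtain ⟨A, hA⟩ := hs K k (1 / 2) (by norm_num)
  set c₀ : ℝ := Real.exp (-((k : ℝ) + (8 * (k : ℝ) ^ 3 + 2 * (k : ℝ) ^ 2))) with hc₀
  have hq := q_ge (k := K)
  refine ⟨c₀ / 2, by positivity, A, ?_⟩
  intro n m hm hn α _ hdeg hadm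
  refine ⟨?_, sq_part n m α hdeg⟩
  have h1 := (hA n m (PU K m) (Om α) 1 (X ^ n) hm hn (fun P hP => by
      rw [mem_PU] at hP
      exact ⟨hP.1, hP.2.1, hP.2.2, isCoprime_one_left⟩) (fun P hP => by
      rw [mem_PU] at hP
      exact ⟨Om_card α P, Om_lt α hP.1 (hadm P hP.1 hP.2.1), Om_deg α hP.1⟩)).1
  rw [← Sfs_card] at h1
  refine le_trans ?_ h1
  have h2 := prod_ge (K := K) k m hm (fun P => (Om α P).card) (fun P hP => by
      rw [mem_PU] at hP
      exact ⟨Om_card α P, Om_lt α hP.1 (hadm P hP.1 hP.2.1)⟩)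
  have h3 : (0 : ℝ) < (Fintype.card K : ℝ) ^ n := by positivity
  calc c₀ / 2 * (Fintype.card K : ℝ) ^ n / (m : ℝ) ^ k
      = (1 - 1 / 2) * (c₀ / (m : ℝ) ^ k) * (Fintype.card K : ℝ) ^ n := by ring
    _ ≤ _ := by
      apply mul_le_mul_of_nonneg_right _ h3.le
      exact mul_le_mul_of_nonneg_left h2 (by norm_num)

end Pool.Agent.H996.Par
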